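import Pool.Agent.H34.FS.Targets

/-!
Row DIL of hfs_modules (MP_63b6b1_nt): the diagonal.
-/

set_option autoImplicit false

open Finset Pool.Agent.H32.RQ Pool.Agent.H34.FQ

namespace Pool.Agent.H67.HFS

open Pool.Agent.H34.FS

/-- the frequencies -/
private theorem freq {n B K A J Q : ℕ} [NeZero Q] {z : Fin n → ℤ} (hB : 1 ≤ B) (hA : 1 ≤ A)
    (hBA : B ≤ A) (hJ : 1 ≤ J) (hQ : Q = 2 * A * J) (hx : Prm z) (hbd : ∀ p, |z p| ≤ B)
    (hbig : ∃ p, (B : ℤ) ≤ K * |z p|) (t : ZMod Q)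
    (ht : ∀ p : Fin n, |(t * (z p : ZMod Q)).valMinAbs| < (J : ℤ)) :
    ∃ a : ℤ, t = (a : ZMod Q) ∧ |a| * (B : ℤ) ≤ (K : ℤ) * J := by
  set t₀ : ℤ := (t.val : ℤ) with ht₀
  have htt : (t₀ : ZMod Q) = t := by
    rw [ht₀]
    push_cast
    exact ZMod.natCast_zmod_val t
  set e : Fin n → ℤ := fun i => (t * (z i : ZMod Q)).valMinAbs with he
  have hex : ∀ i, ∃ u : ℤ, t₀ * z i = Q * u + e i := by
    intro i
    have h1 : (((t₀ * z i - e i : ℤ)) : ZMod Q) = 0 := by
      push_cast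
      rw [htt]
      simp only [he]
      rw [ZMod.coe_valMinAbs]
      ring
    rw [ZMod.intCast_zmod_eq_zero_iff_dvd] at h1
    obtain ⟨u, hu⟩ := h1
    exact ⟨u, by linarith⟩
  choose m hm using hex
  have heb : ∀ i, |e i| < (J : ℤ) := ht
  have hB' : (1 : ℤ) ≤ B := by exact_mod_cast hB
  have hJ' : (1 : ℤ) ≤ J := by exact_mod_cast hJ
  have hBA' : (B : ℤ) ≤ A := by exact_mod_cast hBA
  have hrow : ∀ i j, z i * m j = z j * m i := by
    intro i j
    have h1 : (Q : ℤ) * (z i * m j - z j * m i) = z j * e i - z i * e j := by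
      linear_combination z j * hm i - z i * hm j
    have h2 : |z j * e i - z i * e j| ≤ 2 * (B * (J - 1)) := by
      refine (abs_sub _ _).trans ?_
      rw [abs_mul, abs_mul]
      have e1 : |e i| ≤ (J : ℤ) - 1 := by have := heb i; omega
      have e2 : |e j| ≤ (J : ℤ) - 1 := by have := heb j; omega
      have e3 : |z j| * |e i| ≤ B * (J - 1) :=
        mul_le_mul (hbd j) e1 (abs_nonneg _) (by linarith)
      have e4 : |z i| * |e j| ≤ B * (J - 1) :=
        mul_le_mul (hbd i) e2 (abs_nonneg _) (by linarith)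
      linarith
    by_contra hne
    have h3 : 1 ≤ |z i * m j - z j * m i| := Int.one_le_abs (sub_ne_zero.2 hne)
    have hQ1 : (Q : ℤ) = 2 * A * J := by exact_mod_cast hQ
    have h4 : |(Q : ℤ) * (z i * m j - z j * m i)| =
        (Q : ℤ) * |z i * m j - z j * m i| := by
      rw [abs_mul, abs_of_nonneg (by positivity)]
    rw [← h1, h4, hQ1] at h2
    have h5 : (2 : ℤ) * A * J * 1 ≤ 2 * A * J * |z i * m j - z j * m i| := by
      refine mul_le_mul_of_nonneg_left h3 (by positivity)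
    have h6 : (B : ℤ) * J ≤ A * J := mul_le_mul_of_nonneg_right hBA' (by linarith)
    nlinarith
  obtain ⟨a, ha⟩ := hx
  set α : ℤ := ∑ i, a i * m i with hα
  have hmα : ∀ j, m j = z j * α := by
    intro j
    calc m j = (∑ i, a i * z i) * m j := by rw [ha, one_mul]
      _ = ∑ i, a i * (z i * m j) := by
          rw [Finset.sum_mul]
          exact Finset.sum_congr rfl fun i _ => by ring
      _ = ∑ i, a i * (z j * m i) := Finset.sum_congr rfl fun i _ => by rw [hrow i j]
      _ = z j * α := by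
          rw [hα, Finset.mul_sum]
          exact Finset.sum_congr rfl fun i _ => by ring
  obtain ⟨i, hi⟩ := hbig
  refine ⟨t₀ - Q * α, ?_, ?_⟩
  · push_cast
    rw [htt]
    simp
  have h1 : (t₀ - Q * α) * z i = e i := by
    have := hm i
    rw [hmα] at this
    linarith
  have h2 : |t₀ - Q * α| * |z i| ≤ J := by
    rw [← abs_mul, h1]
    exact (ht i).le
  calc |t₀ - Q * α| * (B : ℤ) ≤ |t₀ - Q * α| * (K * |z i|) := by gcongr
    _ = K * (|t₀ - Q * α| * |z i|) := by ring
    _ ≤ K * J := by gcongr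

open Classical in
/-- the number of the frequencies -/
private theorem cnt {n B K A J Q : ℕ} [NeZero Q] {z : Fin n → ℤ} (hB : 1 ≤ B) (hA : 1 ≤ A)
    (hBA : B ≤ A) (hBJ : B ≤ J) (hQ : Q = 2 * A * J) (hx : Prm z) (hbd : ∀ p, |z p| ≤ B)
    (hbig : ∃ p, (B : ℤ) ≤ K * |z p|) :
    ((Finset.univ.filter fun t : ZMod Q => ∀ p : Fin n,
      |(t * (z p : ZMod Q)).valMinAbs| < (J : ℤ)).card) * B ≤ (2 * K + 1) * J := by
  have hJ : 1 ≤ J := hB.trans hBJ
  set N : ℕ := K * J / B with hn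
  have h1 : (Finset.univ.filter fun t : ZMod Q => ∀ p : Fin n,
      |(t * (z p : ZMod Q)).valMinAbs| < (J : ℤ)) ⊆
      (Finset.Icc (-(N : ℤ)) N).image (fun a : ℤ => (a : ZMod Q)) := by
    intro t ht
    rw [mem_filter] at ht
    obtain ⟨a, ha1, ha2⟩ := freq hB hA hBA hJ hQ hx hbd hbig t ht.2
    rw [mem_image]
    refine ⟨a, ?_, ha1.symm⟩
    have h2 : a.natAbs ≤ N := by
      rw [hn, Nat.le_div_iff_mul_le (by omega)]
      have : ((a.natAbs * B : ℕ) : ℤ) ≤ ((K * J : ℕ) : ℤ) := by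
        push_cast
        exact ha2
      exact_mod_cast this
    rw [mem_Icc]
    omega
  have h2 : (Finset.univ.filter fun t : ZMod Q => ∀ p : Fin n,
      |(t * (z p : ZMod Q)).valMinAbs| < (J : ℤ)).card ≤ 2 * N + 1 := by
    refine (card_le_card h1).trans (card_image_le.trans ?_)
    rw [Int.card_Icc]
    omega
  have h3 : N * B ≤ K * J := Nat.div_mul_le_self _ _
  calc _ ≤ (2 * N + 1) * B := Nat.mul_le_mul_right _ h2
    _ = 2 * (N * B) + B := by ring
    _ ≤ 2 * (K * J) + J := by omega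
    _ = (2 * K + 1) * J := by ring

theorem pf_DIL (hFJB : T_FJB) : T_DIL := by
  classical
  intro n K B A J Q _ z hB hBA hBJ hQ hx hbd hbig
  have hA : 1 ≤ A := hB.trans hBA
  have hJ : 1 ≤ J := hB.trans hBJ
  have hK : 1 ≤ K := by
    obtain ⟨p, hp⟩ := hbig
    rcases Nat.eq_zero_or_pos K with h | h
    · rw [h] at hp
      simp at hp
      omega
    · exact h
  obtain ⟨-, htri, -⟩ := hFJB Q J hJ
  set g : ZMod Q → ℝ := fun t => ∏ p : Fin n, tri Q J (t * (z p : ZMod Q)) with hg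
  have hrr : ∀ j k, rl Q J z z j k = g (j + k) := by
    intro j k
    unfold rl
    rw [hg]
    refine Finset.prod_congr rfl fun p _ => ?_
    rw [add_mul]
  have hsum : ∑ j : ZMod Q, ∑ k : ZMod Q, rl Q J z z j k = Q * ∑ t, g t := by
    have h1 : ∀ j : ZMod Q, ∑ k : ZMod Q, rl Q J z z j k = ∑ t, g t := by
      intro j
      rw [← Equiv.sum_comp (Equiv.addLeft j) g]
      exact Finset.sum_congr rfl fun k _ => hrr j k
    rw [Finset.sum_congr rfl fun j _ => h1 j, Finset.sum_const, nsmul_eq_mul, Finset.card_univ,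
      ZMod.card]
  have hgle : ∑ t, g t ≤ ((Finset.univ.filter fun t : ZMod Q => ∀ p : Fin n,
      |(t * (z p : ZMod Q)).valMinAbs| < (J : ℤ)).card : ℝ) := by
    have h1 : ∀ t, g t ≤ if (∀ p : Fin n,
        |(t * (z p : ZMod Q)).valMinAbs| < (J : ℤ)) then 1 else 0 := by
      intro t
      split_ifs with h
      · exact Finset.prod_le_one (fun p _ => (htri _).1) (fun p _ => (htri _).2)
      · push Not at h
        obtain ⟨p, hp⟩ := h
        refine le_of_eq (Finset.prod_eq_zero (mem_univ p) ?_)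
        unfold tri
        refine max_eq_left ?_
        have hJ0 : (0 : ℝ) < J := by exact_mod_cast hJ
        rw [sub_nonpos, le_div_iff₀ hJ0, one_mul]
        exact_mod_cast hp
    refine (Finset.sum_le_sum fun t _ => h1 t).trans ?_
    rw [Finset.sum_boole]
  have hcnt := cnt hB hA hBA hBJ hQ hx hbd hbig
  have hcnt' : ((Finset.univ.filter fun t : ZMod Q => ∀ p : Fin n,
      |(t * (z p : ZMod Q)).valMinAbs| < (J : ℤ)).card : ℝ) * (B : ℝ) ≤
      (2 * (K : ℝ) + 1) * J := by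
    exact_mod_cast hcnt
  have hQ0 : (0 : ℝ) < Q := by exact_mod_cast Nat.pos_of_ne_zero (NeZero.ne Q)
  have hQ' : (Q : ℝ) = 2 * A * J := by exact_mod_cast hQ
  have hA0 : (0 : ℝ) < A := by
    have : 0 < A := by omega
    exact_mod_cast this
  have hK' : (1 : ℝ) ≤ K := by exact_mod_cast hK
  unfold pl
  rw [hsum, div_mul_eq_mul_div, div_le_iff₀ (by positivity)]
  calc (Q : ℝ) * (∑ t, g t) * (2 * A * (B : ℝ)) =
      (Q : ℝ) * (2 * A) * ((∑ t, g t) * (B : ℝ)) := by ring
    _ ≤ (Q : ℝ) * (2 * A) * ((2 * (K : ℝ) + 1) * J) := by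
        refine mul_le_mul_of_nonneg_left ?_ (by positivity)
        refine le_trans ?_ hcnt'
        gcongr
    _ = (2 * (K : ℝ) + 1) * (Q : ℝ) ^ 2 := by
        rw [hQ']
        ring
    _ ≤ 3 * (K : ℝ) * (Q : ℝ) ^ 2 := by
        refine mul_le_mul_of_nonneg_right (by linarith) (by positivity)

end Pool.Agent.H67.HFS
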