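import Pool.Agent.H34.FS.Targets

/-!
Row PBL of hfs_modules (MP_63b6b1_nt): the bound for two different points.
-/

set_option autoImplicit false

open Finset Pool.Agent.H32.RQ Pool.Agent.H34.FQ

namespace Pool.Agent.H67.HFS

open Pool.Agent.H34.FS

private theorem rl_le' (hFJB : T_FJB) {n Q J : ℕ} [NeZero Q] (hJ : 1 ≤ J) (z z' : Fin n → ℤ)
    (j k : ZMod Q) : rl Q J z z' j k ≤ if (j, k) ∈ zl Q J z z' then 1 else 0 := by
  obtain ⟨-, htri, -⟩ := hFJB Q J hJ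
  unfold rl
  split_ifs with h
  · exact Finset.prod_le_one (fun p _ => (htri _).1) (fun p _ => (htri _).2)
  · unfold zl at h
    rw [mem_filter] at h
    push Not at h
    obtain ⟨p, hp⟩ := h (mem_univ _)
    refine le_of_eq (Finset.prod_eq_zero (mem_univ p) ?_)
    unfold tri
    refine max_eq_left ?_
    have hJ0 : (0 : ℝ) < J := by exact_mod_cast hJ
    rw [sub_nonpos, le_div_iff₀ hJ0, one_mul]
    exact_mod_cast hp

/-- the sum over the frequencies -/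
private theorem pkl_le (hFJB : T_FJB) (hKPB : T_KPB) {n Q J W T : ℕ} [NeZero Q] (hJ : 1 ≤ J)
    (hW : 1 ≤ W) (hWQ : W ∣ Q) (hTQ : T ∣ Q) (hWT : 2 * W ≤ T) (z z' : Fin n → ℤ) (ρ : ℝ)
    (hρ : ∀ q ∈ zl Q J z z' \ zu Q J z z', 1 - kap Q W T q.1 ≤ ρ) :
    pkl Q J W T z z' * (Q : ℝ) ^ 2 ≤
      ((zl Q J z z' \ zu Q J z z').card : ℝ) * ρ + ((zu Q J z z').card : ℝ) := by
  classical
  have hk := (hKPB Q W T hW hWQ hTQ hWT).1
  have hQ0 : (0 : ℝ) < Q := by exact_mod_cast Nat.pos_of_ne_zero (NeZero.ne Q)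
  have hsub : zu Q J z z' ⊆ zl Q J z z' := Finset.filter_subset _ _
  unfold pkl
  rw [div_mul_cancel₀ _ (by positivity)]
  calc ∑ j : ZMod Q, ∑ k : ZMod Q, (1 - kap Q W T j) * rl Q J z z' j k ≤
      ∑ j : ZMod Q, ∑ k : ZMod Q,
        (if (j, k) ∈ zl Q J z z' then (1 - kap Q W T (j, k).1) else 0) := by
        refine Finset.sum_le_sum fun j _ => Finset.sum_le_sum fun k _ => ?_
        have h1 := rl_le' hFJB hJ z z' j k
        have h2 : 0 ≤ 1 - kap Q W T j := by linarith [(hk j).2]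
        split_ifs at h1 ⊢ with h
        · calc (1 - kap Q W T j) * rl Q J z z' j k ≤ (1 - kap Q W T j) * 1 :=
                mul_le_mul_of_nonneg_left h1 h2
            _ = _ := mul_one _
        · calc (1 - kap Q W T j) * rl Q J z z' j k ≤ (1 - kap Q W T j) * 0 :=
                mul_le_mul_of_nonneg_left h1 h2
            _ = _ := mul_zero _
    _ = ∑ q : ZMod Q × ZMod Q, (if q ∈ zl Q J z z' then (1 - kap Q W T q.1) else 0) :=
        by rw [Fintype.sum_prod_type]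
    _ = ∑ q ∈ zl Q J z z', (1 - kap Q W T q.1) := by
        rw [← Finset.sum_filter, Finset.filter_mem_eq_inter, Finset.univ_inter]
    _ = ∑ q ∈ zl Q J z z' \ zu Q J z z', (1 - kap Q W T q.1) +
        ∑ q ∈ zu Q J z z', (1 - kap Q W T q.1) := (Finset.sum_sdiff hsub).symm
    _ ≤ ∑ q ∈ zl Q J z z' \ zu Q J z z', ρ + ∑ q ∈ zu Q J z z', (1 : ℝ) :=
        add_le_add (Finset.sum_le_sum hρ) (Finset.sum_le_sum fun q _ => by linarith [(hk q.1).1])
    _ = _ := by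
        rw [Finset.sum_const, Finset.sum_const, nsmul_eq_mul, nsmul_eq_mul, mul_one]

/-- two real numbers -/
private theorem real2 {P R s u ρ : ℝ} (hP : 0 ≤ P) (hs : 0 ≤ s) (hu : 0 ≤ u) (hρ : 0 ≤ ρ)
    (h1 : P ≤ s * ρ + u) (h2 : P ≤ R) (h3 : R ≤ s + u) :
    P * R ≤ s ^ 2 * ρ + 2 * (u * (s + u)) := by
  have hR : 0 ≤ R := hP.trans h2
  have hsu : 0 ≤ s * u := mul_nonneg hs hu
  rcases le_total ρ 1 with h | h
  · have h4 : P * R ≤ (s * ρ + u) * (s + u) := by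
      refine mul_le_mul h1 h3 hR (by positivity)
    have h5 : s * u * ρ ≤ s * u * 1 := mul_le_mul_of_nonneg_left h hsu
    nlinarith [mul_nonneg hu hu]
  · have h4 : P * R ≤ (s + u) * (s + u) := by
      refine mul_le_mul (h2.trans h3) h3 hR (by positivity)
    have h5 : s ^ 2 * 1 ≤ s ^ 2 * ρ := mul_le_mul_of_nonneg_left h (by positivity)
    nlinarith [mul_nonneg hu hu]

/-- the final computation -/
private theorem alg {A J Q c d g ρ s u tw P R : ℝ} (hA0 : 0 < A) (hJ0 : 0 < J) (hd : 0 < d)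
    (hc : 0 ≤ c) (hg : 0 ≤ g) (hρ : 0 ≤ ρ) (hs0 : 0 ≤ s) (hu0 : 0 ≤ u) (htw : 0 ≤ tw)
    (hQ : Q = 2 * A * J)
    (h : P * Q ^ 2 * (R * Q ^ 2) ≤ s ^ 2 * ρ + 2 * (u * (s + u)))
    (hs : s * d ≤ 9 * g * J ^ 2) (hu : u * A ≤ 14 * (2 * c + 3) * J ^ 2 * tw)
    (hsu : s + u ≤ 9 * J ^ 2) :
    P * R ≤ 16 * (2 * c + 4) * ((g / (A ^ 2 * d)) ^ 2 * ρ + tw / A ^ 5) := by
  have hu2 : u ≤ 14 * (2 * c + 3) * J ^ 2 * tw / A := by
    rw [le_div_iff₀ hA0]
    exact hu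
  have hs2 : s ≤ 9 * g * J ^ 2 / d := by
    rw [le_div_iff₀ hd]
    exact hs
  have hQ4 : Q ^ 2 * Q ^ 2 = 16 * A ^ 4 * J ^ 4 := by
    rw [hQ]
    ring
  have h1 : s ^ 2 * ρ ≤ (9 * g * J ^ 2 / d) ^ 2 * ρ :=
    mul_le_mul_of_nonneg_right (pow_le_pow_left₀ hs0 hs2 2) hρ
  have h2 : 2 * (u * (s + u)) ≤
      2 * ((14 * (2 * c + 3) * J ^ 2 * tw / A) * (9 * J ^ 2)) := by
    refine mul_le_mul_of_nonneg_left ?_ (by norm_num)
    exact mul_le_mul hu2 hsu (by positivity) (by positivity)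
  have h3 : P * R * (Q ^ 2 * Q ^ 2) ≤ (9 * g * J ^ 2 / d) ^ 2 * ρ +
        2 * ((14 * (2 * c + 3) * J ^ 2 * tw / A) * (9 * J ^ 2)) := by
    calc _ = P * Q ^ 2 * (R * Q ^ 2) := by ring
      _ ≤ _ := h
      _ ≤ _ := add_le_add h1 h2
  have h4 : P * R ≤ ((9 * g * J ^ 2 / d) ^ 2 * ρ +
        2 * ((14 * (2 * c + 3) * J ^ 2 * tw / A) * (9 * J ^ 2))) / (16 * A ^ 4 * J ^ 4) := by
    rw [le_div_iff₀ (by positivity), ← hQ4]
    exact h3
  refine h4.trans ?_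
  have h5 : ((9 * g * J ^ 2 / d) ^ 2 * ρ +
        2 * ((14 * (2 * c + 3) * J ^ 2 * tw / A) * (9 * J ^ 2))) / (16 * A ^ 4 * J ^ 4) =
      81 / 16 * ((g / (A ^ 2 * d)) ^ 2 * ρ) + (63 / 4 * (2 * c + 3)) * (tw / A ^ 5) := by
    field_simp
    ring
  rw [h5, mul_add (16 * (2 * c + 4))]
  refine add_le_add ?_ ?_
  · refine mul_le_mul_of_nonneg_right (by linarith) (by positivity)
  · refine mul_le_mul_of_nonneg_right (by linarith) (by positivity)

theorem pf_PBL (hPXL : T_PXL) (hZTR : T_ZTR) (hUNC : T_UNC) (hPKL : T_PKL) (hKPB : T_KPB)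
    (hFJB : T_FJB) : T_PBL := by
  classical
  intro r c
  refine ⟨16 * (2 * c + 4), by positivity, ?_⟩
  intro B A J Q W T D _ x y hc hA hBA hcB hBJ hQ hW hWQ hTQ hWT hDA hprm hxy hxB hyB
  set z : Fin (r + 1) → ℤ := cv (c : ℤ) x with hz
  set z' : Fin (r + 1) → ℤ := cv (c : ℤ) y with hz'
  have hB : 1 ≤ B := hc.trans hcB
  have hB2 : 1 ≤ B ^ 2 := Nat.one_le_pow _ _ hB
  have hJ : 1 ≤ J := by omega
  have hBB : B ≤ B ^ 2 := Nat.le_self_pow two_ne_zero B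
  have hcB' : (c : ℤ) ≤ B := by exact_mod_cast hcB
  have hzB : ∀ p, |z p| ≤ B := by
    intro p
    refine Fin.cases ?_ (fun i => ?_) p
    · change |(c : ℤ)| ≤ B
      rw [abs_of_nonneg (Int.natCast_nonneg c)]
      exact hcB'
    · exact hxB i
  have hzB' : ∀ p, |z' p| ≤ B := by
    intro p
    refine Fin.cases ?_ (fun i => ?_) p
    · change |(c : ℤ)| ≤ B
      rw [abs_of_nonneg (Int.natCast_nonneg c)]
      exact hcB'
    · exact hyB i
  -- the greatest minor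
  have hd1 : 1 ≤ dm z z' := by
    obtain ⟨i, hi⟩ := Function.ne_iff.1 hxy
    have h1 : (mnr z z' 0 i.succ).natAbs ≤ dm z z' :=
      Finset.le_sup (f := fun p : Fin (r + 1) × Fin (r + 1) => (mnr z z' p.1 p.2).natAbs)
        (mem_univ ((0 : Fin (r + 1)), i.succ))
    have h2 : mnr z z' 0 i.succ = c * (y i - x i) := by
      change (c : ℤ) * y i - x i * c = _
      ring
    have h3 : mnr z z' 0 i.succ ≠ 0 := by
      rw [h2]
      refine mul_ne_zero (by exact_mod_cast (by omega : c ≠ 0)) (sub_ne_zero.2 fun h => hi h.symm)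
    have h4 : 1 ≤ (mnr z z' 0 i.succ).natAbs := Int.natAbs_pos.2 h3
    exact h4.trans h1
  have hd2 : dm z z' ≤ J := by
    refine le_trans (Finset.sup_le fun p _ => ?_) hBJ
    have h1 : |mnr z z' p.1 p.2| ≤ 2 * (B : ℤ) ^ 2 := by
      unfold mnr
      refine (abs_sub _ _).trans ?_
      rw [abs_mul, abs_mul]
      have e3 : |z p.1| * |z' p.2| ≤ B * B :=
        mul_le_mul (hzB _) (hzB' _) (abs_nonneg _) (by positivity)
      have e4 : |z p.2| * |z' p.1| ≤ B * B :=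
        mul_le_mul (hzB _) (hzB' _) (abs_nonneg _) (by positivity)
      nlinarith
    zify
    exact h1
  obtain ⟨hs, hx⟩ := hPXL (r + 1) B A J Q W z z' hA hQ hW hWQ hprm hzB' hd1 hd2
  obtain ⟨hp0, hp1, hp2⟩ := hPKL (r + 1) Q J W T z z' hJ hW hWQ hTQ hWT
  have htr := hZTR r c J Q x y hc (by omega) (fun i => by
    have h1 := hxB i
    have h2 := hyB i
    have h3 : |x i - y i| ≤ |x i| + |y i| := abs_sub _ _
    have h4 : 2 * (B : ℤ) ≤ J := by
      have : 2 * B ≤ J := by omega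
      exact_mod_cast this
    linarith) hxy
  have hun := hUNC r c B A J Q D x y hc hA hBA hcB hBJ hQ hDA hxy hxB hyB
  rw [← hz, ← hz'] at htr hun
  set s : ℝ := ((zl Q J z z' \ zu Q J z z').card : ℝ) with hsdef
  set u : ℝ := ((zu Q J z z').card : ℝ) with hudef
  set tw : ℝ := ((TW c B D (fun i => x i - y i) y).card : ℝ) with htw
  set g : ℝ := (gm z z' : ℝ) with hg
  set d : ℝ := (dm z z' : ℝ) with hd
  have hsub : zu Q J z z' ⊆ zl Q J z z' := Finset.filter_subset _ _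
  have hsu : s + u = ((zl Q J z z').card : ℝ) := by
    rw [hsdef, hudef]
    exact_mod_cast Finset.card_sdiff_add_card_eq_card hsub
  have hs0 : 0 ≤ s := Nat.cast_nonneg _
  have hu0 : 0 ≤ u := Nat.cast_nonneg _
  have hg0 : 0 ≤ g := Nat.cast_nonneg _
  have hdpos : 0 < d := by
    rw [hd]
    exact_mod_cast hd1
  have hA0 : (0 : ℝ) < A := by exact_mod_cast hA
  have hJ0 : (0 : ℝ) < J := by exact_mod_cast hJ
  have hQ' : (Q : ℝ) = 2 * A * J := by exact_mod_cast hQ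
  have hQ0 : (0 : ℝ) < Q := by rw [hQ']; positivity
  have hk := (hKPB Q W T hW hWQ hTQ hWT).1
  have hk2 := (hKPB Q W T hW hWQ hTQ hWT).2
  set ρ : ℝ := if gm z z' ∣ W then (B : ℝ) * T / (A * d) else 1 with hρ
  have hρ0 : 0 ≤ ρ := by
    rw [hρ]
    split_ifs
    · positivity
    · exact zero_le_one
  have hρb : ∀ q ∈ zl Q J z z' \ zu Q J z z', 1 - kap Q W T q.1 ≤ ρ := by
    intro q hq
    rw [hρ]
    split_ifs with h
    · obtain ⟨a, m, hqm, hm⟩ := hx h q hq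
      have h1 := hk2 a m q.1 hqm
      have h2 : |(m : ℝ)| * d ≤ 2 * J * B := by
        rw [hd]
        exact_mod_cast hm
      have h3 : |(m : ℝ)| * T / Q ≤ (B : ℝ) * T / (A * d) := by
        rw [div_le_div_iff₀ hQ0 (by positivity), hQ']
        calc |(m : ℝ)| * T * (A * d) = (|(m : ℝ)| * d) * (T * A) := by ring
          _ ≤ (2 * J * B) * (T * A) := mul_le_mul_of_nonneg_right h2 (by positivity)
          _ = (B : ℝ) * T * (2 * A * J) := by ring
      linarith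
    · linarith [(hk q.1).1]
  have hP1 := pkl_le hFJB hKPB hJ hW hWQ hTQ hWT z z' ρ hρb
  have hP2 : pl Q J z z' * (Q : ℝ) ^ 2 ≤ s + u := by
    rw [hsu]
    rw [le_div_iff₀ (by positivity)] at hp2
    exact hp2
  have hP3 : pkl Q J W T z z' * (Q : ℝ) ^ 2 ≤ pl Q J z z' * (Q : ℝ) ^ 2 :=
    mul_le_mul_of_nonneg_right hp1 (by positivity)
  have hmain := real2 (mul_nonneg hp0 (by positivity : (0 : ℝ) ≤ (Q : ℝ) ^ 2)) hs0 hu0 hρ0 hP1
    hP3 hP2
  have hsu2 : s + u ≤ 9 * (J : ℝ) ^ 2 := by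
    rw [hsu]
    exact_mod_cast htr
  have htw0 : 0 ≤ tw := Nat.cast_nonneg _
  exact alg hA0 hJ0 hdpos (Nat.cast_nonneg c) hg0 hρ0 hs0 hu0 htw0 hQ' hmain hs hun hsu2

end Pool.Agent.H67.HFS
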