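import Pool.Agent.H34.FS.Targets

/-!
Row PKL of hfs_modules (MP_63b6b1_nt): the trivial bounds.
-/

set_option autoImplicit false

open Finset Pool.Agent.H32.RQ Pool.Agent.H34.FQ

namespace Pool.Agent.H67.HFS

open Pool.Agent.H34.FS

theorem rl_le (hFJB : T_FJB) {n Q J : ℕ} [NeZero Q] (hJ : 1 ≤ J) (z z' : Fin n → ℤ)
    (j k : ZMod Q) : rl Q J z z' j k ≤ if (j, k) ∈ zl Q J z z' then 1 else 0 := by
  obtain ⟨-, htri, -⟩ := hFJB Q J hJ
  unfold rl
  split_ifs with h
  · exact Finset.prod_le_one (fun p _ => (htri _).1) (fun p _ => (htri _).2)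
  · unfold zl at h
    rw [mem_filter] at h
    push Not at h
    obtain ⟨p, hp⟩ := h (mem_univ _)
    refine le_of_eq (Finset.prod_eq_zero (mem_univ p) ?_)
    unfold tri
    refine max_eq_left ?_
    have hJ0 : (0 : ℝ) < J := by exact_mod_cast hJ
    rw [sub_nonpos, le_div_iff₀ hJ0, one_mul]
    exact_mod_cast hp

theorem rl_nn (hFJB : T_FJB) {n Q J : ℕ} [NeZero Q] (hJ : 1 ≤ J) (z z' : Fin n → ℤ)
    (j k : ZMod Q) : 0 ≤ rl Q J z z' j k :=
  Finset.prod_nonneg fun _ _ => ((hFJB Q J hJ).2.1 _).1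

theorem pf_PKL (hKPB : T_KPB) (hFJB : T_FJB) : T_PKL := by
  intro n Q J W T _ z z' hJ hW hWQ hTQ hWT
  have hk := (hKPB Q W T hW hWQ hTQ hWT).1
  have hr := rl_nn (Q := Q) hFJB hJ z z'
  unfold pkl pl
  refine ⟨?_, ?_, ?_⟩
  · refine div_nonneg (Finset.sum_nonneg fun j _ => Finset.sum_nonneg fun k _ => ?_) (by positivity)
    exact mul_nonneg (by linarith [(hk j).2]) (hr j k)
  · refine div_le_div_of_nonneg_right (Finset.sum_le_sum fun j _ => Finset.sum_le_sum fun k _ => ?_)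
      (by positivity)
    have h1 := mul_nonneg (hk j).1 (hr j k)
    linarith
  · refine div_le_div_of_nonneg_right ?_ (by positivity)
    calc ∑ j : ZMod Q, ∑ k : ZMod Q, rl Q J z z' j k ≤
        ∑ j : ZMod Q, ∑ k : ZMod Q, (if (j, k) ∈ zl Q J z z' then (1 : ℝ) else 0) :=
          Finset.sum_le_sum fun j _ => Finset.sum_le_sum fun k _ => rl_le hFJB hJ z z' j k
      _ = ∑ q : ZMod Q × ZMod Q, (if q ∈ zl Q J z z' then (1 : ℝ) else 0) :=
          by rw [Fintype.sum_prod_type]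
      _ = ((zl Q J z z').card : ℝ) := by
          rw [Finset.sum_boole, Finset.filter_mem_eq_inter, Finset.univ_inter]

end Pool.Agent.H67.HFS
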